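import Pool.Agent.helper94.PL.Spec

set_option autoImplicit false

open Complex Metric Set Filter Topology MeasureTheory MPS
open Pool.Agent.helper16.Multibrot

noncomputable section

namespace PLY

/-- The radii. -/
def BGL_r (n : ℕ) : ℕ → ℝ
  | 0 => 1 / 5
  | j + 1 => BGL_r n j ^ (1 / (n : ℝ))

theorem BGL_r_pos (n j : ℕ) : 0 < BGL_r n j := by
  induction j with
  | zero => norm_num [BGL_r]
  | succ j ih => exact Real.rpow_pos_of_pos ih _

theorem BGL_r_lt (n : ℕ) (hn : 2 ≤ n) (j : ℕ) : BGL_r n j < 1 := by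
  induction j with
  | zero => norm_num [BGL_r]
  | succ j ih =>
    have hn0 : (0 : ℝ) < n := by
      have : 0 < n := by omega
      exact_mod_cast this
    exact Real.rpow_lt_one (BGL_r_pos n j).le ih (by positivity)

theorem BGL_r_pow (n : ℕ) (hn : 2 ≤ n) (j : ℕ) : BGL_r n j ^ (n ^ j) = 1 / 5 := by
  induction j with
  | zero => norm_num [BGL_r]
  | succ j ih =>
    have hn0 : n ≠ 0 := by omega
    have h1 : BGL_r n (j + 1) ^ n = BGL_r n j := by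
      show (BGL_r n j ^ (1 / (n : ℝ))) ^ n = BGL_r n j
      rw [one_div]
      exact Real.rpow_inv_natCast_pow (BGL_r_pos n j).le hn0
    rw [pow_succ', pow_mul, h1, ih]

theorem BGL_r_step (n : ℕ) (hn : 2 ≤ n) (j : ℕ) : BGL_r n j ≤ BGL_r n (j + 1) := by
  have hn0 : n ≠ 0 := by omega
  have h1 : BGL_r n (j + 1) ^ n = BGL_r n j := by
    show (BGL_r n j ^ (1 / (n : ℝ))) ^ n = BGL_r n j
    rw [one_div]
    exact Real.rpow_inv_natCast_pow (BGL_r_pos n j).le hn0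
  calc BGL_r n j = BGL_r n (j + 1) ^ n := h1.symm
    _ ≤ BGL_r n (j + 1) ^ 1 :=
      pow_le_pow_of_le_one (BGL_r_pos n _).le (BGL_r_lt n hn _).le (by omega)
    _ = BGL_r n (j + 1) := pow_one _

theorem BGL_r_mono (n : ℕ) (hn : 2 ≤ n) : Monotone (BGL_r n) :=
  monotone_nat_of_le_succ (BGL_r_step n hn)

theorem BGL_r_ex (n : ℕ) (hn : 2 ≤ n) (x : ℝ) (hx0 : 0 ≤ x) (hx : x < 1) :
    ∃ j : ℕ, x < BGL_r n j := by
  have h1 : Tendsto (fun k : ℕ => x ^ k) atTop (𝓝 0) := tendsto_pow_atTop_nhds_zero_of_lt_one hx0 hx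
  have h2 : Tendsto (fun j : ℕ => n ^ j) atTop atTop := tendsto_pow_atTop_atTop_of_one_lt (by omega)
  have h3 : Tendsto (fun j : ℕ => x ^ (n ^ j)) atTop (𝓝 0) := h1.comp h2
  have h4 : ∀ᶠ j : ℕ in atTop, x ^ (n ^ j) < 1 / 5 :=
    h3.eventually (gt_mem_nhds (by norm_num))
  obtain ⟨j, hj⟩ := h4.exists
  refine ⟨j, ?_⟩
  rw [← BGL_r_pow n hn j] at hj
  exact lt_of_pow_lt_pow_left₀ (n ^ j) (BGL_r_pos n j).le hj

theorem BGL_restrict (n : ℕ) (c : ℂ) (r s : ℝ) (E : ℂ → ℂ) (hrs : r ≤ s) (h : BE n c s E) :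
    BE n c r E where
  hol := h.hol.mono (ball_subset_ball hrs)
  one := h.one
  fe := fun v hv => h.fe v (ball_subset_ball hrs hv)

theorem BGL (hL : BL0_stmt) (hU : BUQ_stmt) (hX : BEX_stmt) (hM : MBD_stmt) : BGL_stmt := by
  classical
  intro n c hn hc
  obtain ⟨hc2, -, -⟩ := hM n c hn hc
  have hex : ∀ j : ℕ, ∃ E : ℂ → ℂ, BE n c (BGL_r n j) E := by
    intro j
    induction j with
    | zero => exact hL n c hn hc2
    | succ j ih =>
      obtain ⟨E, hE⟩ := ih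
      obtain ⟨E', hE', -⟩ := hX n c (BGL_r n j) E hn hc (BGL_r_pos n j) (BGL_r_lt n hn j) hE
      exact ⟨E', hE'⟩
  choose Es hEs using hex
  have huniq : ∀ i j : ℕ, i ≤ j → ∀ v ∈ ball (0 : ℂ) (BGL_r n i), Es i v = Es j v := by
    intro i j hij v hv
    exact hU n c (BGL_r n i) (Es i) (Es j) hn (BGL_r_pos n i) (BGL_r_lt n hn i).le (hEs i)
      (BGL_restrict n c _ _ _ (BGL_r_mono n hn hij) (hEs j)) v hv
  set F : ℂ → ℂ := fun v => if h : ∃ j : ℕ, ‖v‖ < BGL_r n j then Es (Nat.find h) v else 1 with hF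
  have hFE : ∀ (j : ℕ) (v : ℂ), v ∈ ball (0 : ℂ) (BGL_r n j) → F v = Es j v := by
    intro j v hv
    rw [mem_ball_zero_iff] at hv
    have h : ∃ j : ℕ, ‖v‖ < BGL_r n j := ⟨j, hv⟩
    have h1 : F v = Es (Nat.find h) v := by
      simp only [hF]
      rw [dif_pos h]
    rw [h1]
    exact huniq _ j (Nat.find_min' h hv) v (mem_ball_zero_iff.2 (Nat.find_spec h))
  have hin : ∀ v ∈ ball (0 : ℂ) 1, ∃ j : ℕ, v ∈ ball (0 : ℂ) (BGL_r n j) := by
    intro v hv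
    rw [mem_ball_zero_iff] at hv
    obtain ⟨j, hj⟩ := BGL_r_ex n hn ‖v‖ (norm_nonneg v) hv
    exact ⟨j, mem_ball_zero_iff.2 hj⟩
  refine ⟨F, ⟨?_, ?_, ?_⟩⟩
  · intro v hv
    obtain ⟨j, hj⟩ := hin v hv
    have hnb : ball (0 : ℂ) (BGL_r n j) ∈ 𝓝 v := isOpen_ball.mem_nhds hj
    have hd : DifferentiableAt ℂ (Es j) v := (hEs j).hol.differentiableAt hnb
    have he : F =ᶠ[𝓝 v] Es j := by
      filter_upwards [hnb] with w hw
      exact hFE j w hw
    exact (he.differentiableAt_iff.2 hd).differentiableWithinAt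
  · have h0 : (0 : ℂ) ∈ ball (0 : ℂ) (BGL_r n 0) := mem_ball_self (BGL_r_pos n 0)
    rw [hFE 0 0 h0]
    exact (hEs 0).one
  · intro v hv
    obtain ⟨j, hj⟩ := hin v hv
    have hj' : v ^ n ∈ ball (0 : ℂ) (BGL_r n j) := by
      rw [mem_ball_zero_iff] at hj hv ⊢
      rw [norm_pow]
      have h1 : ‖v‖ ^ n ≤ ‖v‖ := pow_le_of_le_one (norm_nonneg v) hv.le (by omega)
      exact lt_of_le_of_lt h1 hj
    rw [hFE j v hj, hFE j _ hj']
    exact (hEs j).fe v hj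

end PLY
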